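import Mathlib

/-!
# A countably infinite interval of strong clones (operations with restricted domain)

Ground set `A = {0,1,2,3}`; `C` is the clone of all operations preserving the binary relation `rho`
(`a ≠ 3`, `b ∈ {0,3}`, `a = 0` or `b = 0`) and the unary relation `U = {0,1}`.
-/

set_option autoImplicit false

namespace Pool.Agent.MP_2c0439_al

/-- The ground set. -/
abbrev A : Type := Fin 4

/-- The binary relation. -/
def rho (a b : A) : Prop := a ≠ 3 ∧ (b = 0 ∨ b = 3) ∧ (a = 0 ∨ b = 0)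

/-- The unary relation. -/
def U (a : A) : Prop := a = 0 ∨ a = 1

/-- The first projection of `rho`. -/
def T1 (a : A) : Prop := a ≠ 3

/-- The second projection of `rho`. -/
def T2 (a : A) : Prop := a = 0 ∨ a = 3

instance (a b : A) : Decidable (rho a b) := by unfold rho; infer_instance
instance (a : A) : Decidable (U a) := by unfold U; infer_instance
instance (a : A) : Decidable (T1 a) := by unfold T1; infer_instance
instance (a : A) : Decidable (T2 a) := by unfold T2; infer_instance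

theorem rho_T1 {a b : A} (h : rho a b) : T1 a := h.1
theorem rho_T2 {a b : A} (h : rho a b) : T2 b := h.2.1
theorem rho_zero_right {a : A} (h : T1 a) : rho a 0 := ⟨h, Or.inl rfl, Or.inr rfl⟩
theorem rho_zero_left {b : A} (h : T2 b) : rho 0 b := ⟨by decide, h, Or.inl rfl⟩
theorem rho_zero : rho 0 0 := by decide
theorem U_T1 {a : A} (h : U a) : T1 a := by
  rcases h with h | h <;> subst h <;> decide
theorem T1_T2 {a : A} (h1 : T1 a) (h2 : T2 a) : a = 0 := by
  rcases h2 with h | h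
  · exact h
  · exact absurd h h1

/-- Families of operations with restricted domain. -/
abbrev Fam : Type := (n : ℕ) → Set ((Fin (n + 1) → A) → Option A)

/-- The clone. -/
def C (n : ℕ) : Set ((Fin (n + 1) → A) → A) :=
  {f | (∀ a b : Fin (n + 1) → A, (∀ i, rho (a i) (b i)) → rho (f a) (f b)) ∧
    ∀ a : Fin (n + 1) → A, (∀ i, U (a i)) → U (f a)}

/-- Membership in the interval. -/
structure IsI (F : Fam) : Prop where
  proj : ∀ (n : ℕ) (i : Fin (n + 1)), (fun x : Fin (n + 1) → A => some (x i)) ∈ F n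
  comp : ∀ (n m : ℕ) (f : (Fin (n+1) → A) → Option A)
            (g : Fin (n+1) → (Fin (m+1) → A) → Option A)
            (h : (Fin (m+1) → A) → Option A),
            f ∈ F n → (∀ i, g i ∈ F m) →
            (∀ x b, h x = some b ↔
              ∃ y : Fin (n+1) → A, (∀ i, g i x = some (y i)) ∧ f y = some b) →
            h ∈ F m
  res : ∀ (n : ℕ) (f h : (Fin (n+1) → A) → Option A),
            f ∈ F n → (∀ x b, h x = some b → f x = some b) → h ∈ F n
  tot : ∀ (n : ℕ) (f : (Fin (n+1) → A) → A), f ∈ C n ↔ (fun x => some (f x)) ∈ F n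

/-- Composition. -/
def cmp {n m : ℕ} (f : (Fin (n+1) → A) → Option A) (g : Fin (n+1) → (Fin (m+1) → A) → Option A)
    (x : Fin (m+1) → A) : Option A :=
  if h : ∀ j, (g j x).isSome then f (fun j => (g j x).get (h j)) else none

theorem cmp_spec {n m : ℕ} (f : (Fin (n+1) → A) → Option A)
    (g : Fin (n+1) → (Fin (m+1) → A) → Option A) (x : Fin (m+1) → A) (b : A) :
    cmp f g x = some b ↔ ∃ y : Fin (n+1) → A, (∀ i, g i x = some (y i)) ∧ f y = some b := by
  unfold cmp
  constructor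
  · intro h
    by_cases hs : ∀ j, (g j x).isSome
    · rw [dif_pos hs] at h
      exact ⟨fun j => (g j x).get (hs j), fun i => (Option.some_get (hs i)).symm, h⟩
    · rw [dif_neg hs] at h
      exact absurd h (by simp)
  · rintro ⟨y, hy, hf⟩
    have hs : ∀ j, (g j x).isSome := fun j => by rw [hy j]; rfl
    rw [dif_pos hs]
    have : (fun j => (g j x).get (hs j)) = y := by
      funext j
      simp [hy j]
    rw [this, hf]

theorem cmp_eq {n m : ℕ} (f : (Fin (n+1) → A) → Option A)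
    (g : Fin (n+1) → (Fin (m+1) → A) → Option A) (x : Fin (m+1) → A) (y : Fin (n+1) → A)
    (hy : ∀ i, g i x = some (y i)) : cmp f g x = f y := by
  unfold cmp
  have hs : ∀ j, (g j x).isSome := fun j => by rw [hy j]; rfl
  rw [dif_pos hs]
  have : (fun j => (g j x).get (hs j)) = y := by
    funext j
    simp [hy j]
  rw [this]

theorem IsI.cmp_mem {F : Fam} (hF : IsI F) {n m : ℕ} {f : (Fin (n+1) → A) → Option A}
    {g : Fin (n+1) → (Fin (m+1) → A) → Option A} (hf : f ∈ F n) (hg : ∀ i, g i ∈ F m) :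
    cmp f g ∈ F m :=
  hF.comp n m f g _ hf hg (cmp_spec f g)

/-- Invariance of a relation. -/
def Inv (F : Fam) {V : Type} (R : Set (V → A)) : Prop :=
  ∀ (n : ℕ) (f : (Fin (n+1) → A) → Option A), f ∈ F n → ∀ (r : Fin (n+1) → V → A) (s : V → A),
    (∀ i, r i ∈ R) → (∀ v, f (fun i => r i v) = some (s v)) → s ∈ R

/-- Operations preserving a relation. -/
def pPol {V : Type} (R : Set (V → A)) : Fam := fun n =>
  {f | ∀ (r : Fin (n+1) → V → A) (s : V → A),
    (∀ i, r i ∈ R) → (∀ v, f (fun i => r i v) = some (s v)) → s ∈ R}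

theorem inv_pPol {V : Type} (R : Set (V → A)) : Inv (pPol R) R :=
  fun _ _ hf r s hr hs => hf r s hr hs

/-- Structures. -/
structure Str (V : Type) where
  E : V → V → Prop
  M : V → Prop
  P : V → Prop
  Q : V → Prop

/-- Solutions. -/
def Str.Sol {V : Type} (D : Str V) : Set (V → A) :=
  {r | (∀ a b, D.E a b → rho (r a) (r b)) ∧ (∀ a, D.M a → U (r a)) ∧
    (∀ a, D.P a → T1 (r a)) ∧ (∀ a, D.Q a → T2 (r a))}

/-- Covering of a condition by a hom-image of an invariant relation. -/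
def Cov (F : Fam) {W : Type} (D : Str W) (φ : (W → A) → Prop) : Prop :=
  ∃ (X : Type) (R : Set (X → A)) (τ : X → W), Inv F R ∧ (∀ r ∈ D.Sol, r ∘ τ ∈ R) ∧
    ∀ s : W → A, s ∘ τ ∈ R → φ s

theorem Cov.mono {F : Fam} {W : Type} {D : Str W} {φ ψ : (W → A) → Prop} (h : Cov F D φ)
    (hφ : ∀ s, φ s → ψ s) : Cov F D ψ := by
  obtain ⟨X, R, τ, h1, h2, h3⟩ := h
  exact ⟨X, R, τ, h1, h2, fun s hs => hφ s (h3 s hs)⟩

theorem Cov.holds {F : Fam} {W : Type} {D : Str W} {φ : (W → A) → Prop} (h : Cov F D φ)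
    {n : ℕ} {f : (Fin (n+1) → A) → Option A} (hf : f ∈ F n) (r : Fin (n+1) → W → A) (s : W → A)
    (hr : ∀ i, r i ∈ D.Sol) (hs : ∀ v, f (fun i => r i v) = some (s v)) : φ s := by
  obtain ⟨X, R, τ, h1, h2, h3⟩ := h
  exact h3 s (h1 n f hf (fun i => r i ∘ τ) (s ∘ τ) (fun i => h2 _ (hr i)) (fun v => hs (τ v)))

theorem inv_of_cov {F : Fam} {W : Type} {D : Str W}
    (hE : ∀ a b, D.E a b → Cov F D (fun s => rho (s a) (s b)))
    (hM : ∀ a, D.M a → Cov F D (fun s => U (s a)))
    (hP : ∀ a, D.P a → Cov F D (fun s => T1 (s a)))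
    (hQ : ∀ a, D.Q a → Cov F D (fun s => T2 (s a))) : Inv F D.Sol := by
  intro n f hf r s hr hs
  exact ⟨fun a b h => (hE a b h).holds hf r s hr hs, fun a h => (hM a h).holds hf r s hr hs,
    fun a h => (hP a h).holds hf r s hr hs, fun a h => (hQ a h).holds hf r s hr hs⟩

theorem exists_enum {J : Type} [Finite J] [Nonempty J] :
    ∃ (N : ℕ) (e : Fin (N + 1) → J), Function.Surjective e := by
  classical
  obtain ⟨k, ⟨e⟩⟩ := Finite.exists_equiv_fin J
  cases k with
  | zero => exact ((e (Classical.arbitrary J)).elim0)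
  | succ N => exact ⟨N, e.symm, e.symm.surjective⟩

/-! ### The paths -/

/-- The marked path with vertices `0, …, n`. -/
def path (n : ℕ) : Str ℕ where
  E i j := Even i ∧ Odd j ∧ (i + 1 = j ∨ j + 1 = i) ∧ i ≤ n ∧ j ≤ n
  M i := i = 0
  P _ := False
  Q _ := False

theorem path_T1 {n : ℕ} (hn : 1 ≤ n) {r : ℕ → A} (hr : r ∈ (path n).Sol) {j : ℕ} (hj : j ≤ n)
    (he : Even j) : T1 (r j) := by
  by_cases h : j + 1 ≤ n
  · exact rho_T1 (hr.1 j (j + 1) ⟨he, he.add_one, Or.inl rfl, hj, h⟩)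
  · have hjn : j = n := by omega
    have hj1 : 1 ≤ j := by omega
    obtain ⟨k, rfl⟩ : ∃ k, j = k + 1 := ⟨j - 1, by omega⟩
    have hk : Odd k := by
      rcases Nat.even_or_odd k with h' | h'
      · exact absurd he (Nat.not_even_iff_odd.mpr h'.add_one)
      · exact h'
    exact rho_T1 (hr.1 (k + 1) k ⟨he, hk, Or.inr rfl, hj, by omega⟩)

theorem path_T2 {n : ℕ} {r : ℕ → A} (hr : r ∈ (path n).Sol) {j : ℕ} (hj : j ≤ n)
    (ho : Odd j) : T2 (r j) := by
  obtain ⟨k, rfl⟩ : ∃ k, j = k + 1 := ⟨j - 1, by have := ho.pos; omega⟩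
  have hk : Even k := by
    rcases Nat.even_or_odd k with h' | h'
    · exact h'
    · exact absurd h'.add_one (Nat.not_even_iff_odd.mpr ho)
  exact rho_T2 (hr.1 k (k + 1) ⟨hk, ho, Or.inl rfl, by omega, hj⟩)

/-- The folding map. -/
def pos (t j : ℕ) : ℕ := if j ≤ t then j else if (j + t) % 2 = 0 then t else t - 1

theorem pos_le (t j : ℕ) : pos t j ≤ t := by
  unfold pos
  split_ifs <;> omega

theorem pos_zero (t : ℕ) : pos t 0 = 0 := by simp [pos]

theorem pos_even {t j : ℕ} (ht : 1 ≤ t) (h : Even j) : Even (pos t j) := by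
  rw [Nat.even_iff] at h ⊢
  unfold pos
  split_ifs <;> omega

theorem pos_odd {t j : ℕ} (ht : 1 ≤ t) (h : Odd j) : Odd (pos t j) := by
  rw [Nat.odd_iff] at h ⊢
  unfold pos
  split_ifs <;> omega

theorem pos_adj {t i j : ℕ} (ht : 1 ≤ t) (h : i + 1 = j ∨ j + 1 = i) :
    pos t i + 1 = pos t j ∨ pos t j + 1 = pos t i := by
  unfold pos
  split_ifs <;> omega

theorem pos_top {t i j : ℕ} (h : i + 1 = j) (hj : t ≤ j) (ht : 1 ≤ t) :
    (pos t i = t ∧ pos t j = t - 1) ∨ (pos t i = t - 1 ∧ pos t j = t) := by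
  unfold pos
  split_ifs <;> omega

/-- Every structure with a potential of height `n` generates the path of length `n`. -/
theorem lemmaB {F : Fam} {V : Type} {D : Str V} (hD : Inv F D.Sol) (l : V → ℕ)
    (hM : ∀ a, D.M a → l a = 0)
    (hE : ∀ a b, D.E a b → Even (l a) ∧ Odd (l b) ∧ (l a + 1 = l b ∨ l b + 1 = l a))
    (hP : ∀ a, D.P a → Even (l a)) (hQ : ∀ a, D.Q a → Odd (l a))
    {n : ℕ} (hn : 1 ≤ n) (hm : ∃ m, D.M m)
    (hab : ∃ a b, D.E a b ∧ (l a = n ∨ l b = n) ∧ l a ≤ n ∧ l b ≤ n) :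
    Inv F (path n).Sol := by
  have hom : ∀ t, 1 ≤ t → t ≤ n → ∀ r ∈ (path n).Sol, r ∘ (fun v => pos t (l v)) ∈ D.Sol := by
    intro t ht htn r hr
    refine ⟨?_, ?_, ?_, ?_⟩
    · intro a b h
      obtain ⟨h1, h2, h3⟩ := hE a b h
      exact hr.1 _ _ ⟨pos_even ht h1, pos_odd ht h2, pos_adj ht h3, (pos_le _ _).trans htn,
        (pos_le _ _).trans htn⟩
    · intro a h
      have h0 : pos t (l a) = 0 := by rw [hM a h, pos_zero]
      show U (r (pos t (l a)))
      rw [h0]
      exact hr.2.1 0 rfl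
    · intro a h
      exact path_T1 hn hr ((pos_le _ _).trans htn) (pos_even ht (hP a h))
    · intro a h
      exact path_T2 hr ((pos_le _ _).trans htn) (pos_odd ht (hQ a h))
  refine inv_of_cov ?_ ?_ (fun _ h => h.elim) (fun _ h => h.elim)
  · rintro i j ⟨hi, hj, hij, hin, hjn⟩
    obtain ⟨a, b, hEab, hmax, hla, hlb⟩ := hab
    obtain ⟨h1, h2, h3⟩ := hE a b hEab
    -- the height of the edge to be covered
    have key : ∀ t, 1 ≤ t → t ≤ n → ((i = t ∧ j = t - 1) ∨ (i = t - 1 ∧ j = t)) →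
        Cov F (path n) (fun s => rho (s i) (s j)) := by
      intro t ht htn hijt
      refine ⟨V, D.Sol, fun v => pos t (l v), hD, hom t ht htn, ?_⟩
      intro s hs
      have h4 := hs.1 a b hEab
      have ha : Even (pos t (l a)) := pos_even ht h1
      have hb : Odd (pos t (l b)) := pos_odd ht h2
      have h5 : pos t (l a) = i ∧ pos t (l b) = j := by
        rw [Nat.even_iff] at ha hi
        rw [Nat.odd_iff] at hb hj
        have h6 : (pos t (l a) = t ∧ pos t (l b) = t - 1) ∨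
            (pos t (l a) = t - 1 ∧ pos t (l b) = t) := by
          rcases h3 with h3 | h3
          · exact pos_top h3 (by omega) ht
          · rcases pos_top h3 (by omega) ht with h | h
            · exact Or.inr ⟨h.2, h.1⟩
            · exact Or.inl ⟨h.2, h.1⟩
        omega
      have h7 : rho (s (pos t (l a))) (s (pos t (l b))) := h4
      rw [h5.1, h5.2] at h7
      exact h7
    rcases hij with hij | hij
    · exact key j (by omega) hjn (Or.inr ⟨by omega, rfl⟩)
    · exact key i (by omega) hin (Or.inl ⟨rfl, by omega⟩)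
  · intro i hi
    obtain ⟨m, hm⟩ := hm
    refine ⟨V, D.Sol, fun v => pos n (l v), hD, hom n hn le_rfl, ?_⟩
    intro s hs
    have h1 : U (s (pos n (l m))) := hs.2.1 m hm
    rw [hM m hm, pos_zero] at h1
    have hi' : i = 0 := hi
    rw [hi']
    exact h1

theorem path_mono {F : Fam} {n m : ℕ} (hm : 1 ≤ m) (hmn : m ≤ n) (h : Inv F (path n).Sol) :
    Inv F (path m).Sol := by
  have hparity : ∀ k : ℕ, ∃ a b : ℕ, Even a ∧ Odd b ∧ (a + 1 = b ∨ b + 1 = a) ∧
      (a = k + 1 ∨ b = k + 1) ∧ a ≤ k + 1 ∧ b ≤ k + 1 := by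
    intro k
    rcases Nat.even_or_odd k with hk | hk
    · exact ⟨k, k + 1, hk, hk.add_one, Or.inl rfl, Or.inr rfl, by omega, le_rfl⟩
    · exact ⟨k + 1, k, hk.add_one, hk, Or.inr rfl, Or.inl rfl, le_rfl, by omega⟩
  refine lemmaB h (fun i => i) (fun a ha => ha) (fun a b hab => ⟨hab.1, hab.2.1, hab.2.2.1⟩)
    (fun _ h => h.elim) (fun _ h => h.elim) hm ⟨0, rfl⟩ ?_
  obtain ⟨k, rfl⟩ : ∃ k, m = k + 1 := ⟨m - 1, by omega⟩
  obtain ⟨a, b, h1, h2, h3, h4, h5, h6⟩ := hparity k
  exact ⟨a, b, ⟨h1, h2, h3, by omega, by omega⟩, h4, h5, h6⟩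

end Pool.Agent.MP_2c0439_al
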