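import Pool.Agent.Lib.MP_2c0439_al.Basic

set_option autoImplicit false

namespace Pool.Agent.MP_2c0439_al

/-! ### Structures with a vertex forced to be zero -/

theorem zero_sol {V : Type} (D : Str V) : (fun _ : V => (0 : A)) ∈ D.Sol :=
  ⟨fun _ _ _ => rho_zero, fun _ _ => Or.inl rfl, fun _ _ => by show T1 0; decide,
    fun _ _ => Or.inl rfl⟩

open Classical in
theorem inv_zero {F : Fam} (hF : IsI F) {V : Type} [Finite V] (D : Str V) (z : V)
    (hP : D.P z) (hQ : D.Q z) : Inv F D.Sol := by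
  have : Finite D.Sol := Subtype.finite
  have : Nonempty D.Sol := ⟨⟨_, zero_sol D⟩⟩
  obtain ⟨N, e, he⟩ := exists_enum (J := D.Sol)
  intro n f hf r s hr hs
  have hz : ∀ r ∈ D.Sol, r z = 0 := fun r hr => T1_T2 (hr.2.2.1 z hP) (hr.2.2.2 z hQ)
  let c : V → Fin (N + 1) → A := fun v j => (e j).1 v
  have hj : ∀ i, ∃ j, e j = ⟨r i, hr i⟩ := fun i => he _
  choose j hj using hj
  -- the inner functions
  let k : Fin (n + 1) → (Fin (N + 1) → A) → A := fun i w => if ∃ v, w = c v then w (j i) else 0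
  have hkc : ∀ i v, k i (c v) = r i v := by
    intro i v
    have h1 : k i (c v) = c v (j i) := if_pos ⟨v, rfl⟩
    rw [h1]
    simp only [c, hj]
  have hk0 : ∀ i w, (¬ ∃ v, w = c v) → k i w = 0 := fun i w h => if_neg h
  have hkC : ∀ i, k i ∈ C N := by
    intro i
    constructor
    · intro a b hab
      by_cases ha : ∃ v, a = c v
      · by_cases hb : ∃ v, b = c v
        · have h1 : k i a = a (j i) := if_pos ha
          have h2 : k i b = b (j i) := if_pos hb
          rw [h1, h2]
          exact hab _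
        · have h1 : k i a = a (j i) := if_pos ha
          rw [hk0 i b hb, h1]
          exact rho_zero_right (rho_T1 (hab _))
      · by_cases hb : ∃ v, b = c v
        · have h2 : k i b = b (j i) := if_pos hb
          rw [hk0 i a ha, h2]
          exact rho_zero_left (rho_T2 (hab _))
        · rw [hk0 i a ha, hk0 i b hb]
          exact rho_zero
    · intro a ha
      by_cases h : ∃ v, a = c v
      · have h1 : k i a = a (j i) := if_pos h
        rw [h1]
        exact ha _
      · rw [hk0 i a h]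
        exact Or.inl rfl
  have hkF : ∀ i, (fun w => some (k i w)) ∈ F N := fun i => (hF.tot N _).mp (hkC i)
  have hcmp := hF.cmp_mem hf hkF
  have hval : ∀ w, cmp f (fun i w => some (k i w)) w = f (fun i => k i w) :=
    fun w => cmp_eq _ _ _ _ (fun i => rfl)
  have h0 : f (fun _ => 0) = some (s z) := by
    have h1 := hs z
    have h2 : (fun i => r i z) = fun _ => 0 := funext fun i => hz _ (hr i)
    rwa [h2] at h1
  let h' : (Fin (N + 1) → A) → A := fun w => if h : ∃ v, w = c v then s h.choose else s z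
  have hh' : (fun w => some (h' w)) = cmp f (fun i w => some (k i w)) := by
    funext w
    rw [hval]
    by_cases h : ∃ v, w = c v
    · have h1 : h' w = s h.choose := dif_pos h
      rw [h1, ← hs h.choose]
      have h2 : (fun i => k i w) = fun i => r i h.choose := by
        funext i
        have h3 := h.choose_spec
        have h4 := hkc i h.choose
        rw [← h3] at h4
        exact h4
      rw [h2]
    · have h1 : h' w = s z := dif_neg h
      rw [h1]
      have h2 : (fun i => k i w) = fun _ => 0 := funext fun i => hk0 i w h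
      rw [h2, h0]
  have hC : h' ∈ C N := by
    rw [hF.tot, hh']
    exact hcmp
  have hs' : ∀ v, h' (c v) = s v := by
    intro v
    have h1 := congrFun hh' (c v)
    rw [hval] at h1
    have h2 : (fun i => k i (c v)) = fun i => r i v := funext fun i => hkc i v
    rw [h2, hs v] at h1
    exact Option.some.inj h1
  have hzero : c z = fun _ => 0 := funext fun j => hz _ (e j).2
  refine ⟨?_, ?_, ?_, ?_⟩
  · intro a b hab
    rw [← hs' a, ← hs' b]
    exact hC.1 _ _ fun j => (e j).2.1 a b hab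
  · intro a ha
    rw [← hs' a]
    exact hC.2 _ fun j => (e j).2.2.1 a ha
  · intro a ha
    rw [← hs' a]
    refine rho_T1 (b := h' (c z)) (hC.1 _ _ fun j => ?_)
    rw [hzero]
    exact rho_zero_right ((e j).2.2.2.1 a ha)
  · intro a ha
    rw [← hs' a]
    refine rho_T2 (a := h' (c z)) (hC.1 _ _ fun j => ?_)
    rw [hzero]
    exact rho_zero_left ((e j).2.2.2.2 a ha)

/-! ### Families are determined by the invariant structures -/

/-- The structure of all implied conditions. -/
def impl {V : Type} (R : Set (V → A)) : Str V where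
  E a b := ∀ r ∈ R, rho (r a) (r b)
  M a := ∀ r ∈ R, U (r a)
  P a := ∀ r ∈ R, T1 (r a)
  Q a := ∀ r ∈ R, T2 (r a)

theorem sub_impl {V : Type} (R : Set (V → A)) : R ⊆ (impl R).Sol :=
  fun r hr => ⟨fun _ _ h => h r hr, fun _ h => h r hr, fun _ h => h r hr, fun _ h => h r hr⟩

/-- Closed structures. -/
structure Closed {V : Type} (D : Str V) : Prop where
  EP : ∀ a b, D.E a b → D.P a
  EQ : ∀ a b, D.E a b → D.Q b
  MP : ∀ a, D.M a → D.P a

theorem closed_impl {V : Type} (R : Set (V → A)) : Closed (impl R) where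
  EP _ _ h r hr := rho_T1 (h r hr)
  EQ _ _ h r hr := rho_T2 (h r hr)
  MP _ h r hr := U_T1 (h r hr)

open Classical in
theorem exists_str {F : Fam} (hF : IsI F) {n : ℕ} {f : (Fin (n+1) → A) → Option A}
    (hf : f ∉ F n) : ∃ (V : Type) (_ : Finite V) (_ : Nonempty V) (D : Str V), Closed D ∧
      Inv F D.Sol ∧ ∀ G : Fam, f ∈ G n → ¬ Inv G D.Sol ∨ ¬ IsI G := by
  let V : Type := {x : Fin (n+1) → A // (f x).isSome}
  let R : Set (V → A) := {r | ∃ g ∈ F n, ∀ x : V, g x.1 = some (r x)}
  let s0 : V → A := fun x => (f x.1).get x.2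
  have hs0 : ∀ x : V, f x.1 = some (s0 x) := fun x => (Option.some_get x.2).symm
  have hs0R : s0 ∉ R := by
    rintro ⟨g, hg, hgx⟩
    apply hf
    refine hF.res n g f hg ?_
    intro x b hxb
    have hx : (f x).isSome := by rw [hxb]; rfl
    have h1 := hgx ⟨x, hx⟩
    rw [h1, ← hs0 ⟨x, hx⟩]
    exact hxb
  have hproj : ∀ i : Fin (n+1), (fun x : V => x.1 i) ∈ R :=
    fun i => ⟨_, hF.proj n i, fun x => rfl⟩
  have hne : Nonempty V := by
    by_contra hcon
    rw [not_nonempty_iff] at hcon
    apply hs0R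
    have : s0 = fun x : V => x.1 0 := Subsingleton.elim _ _
    rw [this]
    exact hproj 0
  have : Finite V := Subtype.finite
  have : Finite R := Subtype.finite
  have : Nonempty R := ⟨⟨_, hproj 0⟩⟩
  -- `R` is closed under the members of `F`
  have hRinv : Inv F R := by
    intro m g hg r s hr hs
    choose k hk1 hk2 using hr
    refine ⟨cmp g k, hF.cmp_mem hg hk1, ?_⟩
    intro x
    rw [cmp_eq g k x.1 (fun i => r i x) (fun i => hk2 i x)]
    exact hs x
  have hRD : (impl R).Sol = R := by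
    apply Set.Subset.antisymm _ (sub_impl R)
    intro s hs
    obtain ⟨N, e, he⟩ := exists_enum (J := R)
    let c : V → Fin (N + 1) → A := fun v j => (e j).1 v
    have hall : ∀ (φ : (V → A) → Prop), (∀ j, φ (e j).1) → ∀ r ∈ R, φ r := by
      intro φ h r hr
      obtain ⟨j, hj⟩ := he ⟨r, hr⟩
      have := h j
      rwa [hj] at this
    have hcinj : ∀ v w, c v = c w → v = w := by
      intro v w h
      apply Subtype.ext
      funext i
      exact hall (fun r => r v = r w) (fun j => congrFun h j) _ (hproj i)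
    let k : (Fin (N + 1) → A) → A := fun w => if h : ∃ v, w = c v then s h.choose else 0
    have hkc : ∀ v, k (c v) = s v := by
      intro v
      have h : ∃ w, c v = c w := ⟨v, rfl⟩
      have h1 : k (c v) = s h.choose := dif_pos h
      rw [h1, ← hcinj v h.choose h.choose_spec]
    have hk0 : ∀ w, (¬ ∃ v, w = c v) → k w = 0 := fun w h => dif_neg h
    have hkC : k ∈ C N := by
      constructor
      · intro a b hab
        by_cases ha : ∃ v, a = c v
        · obtain ⟨v, rfl⟩ := ha
          rw [hkc]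
          by_cases hb : ∃ v, b = c v
          · obtain ⟨w, rfl⟩ := hb
            rw [hkc]
            exact hs.1 v w (hall (fun r => rho (r v) (r w)) hab)
          · rw [hk0 b hb]
            exact rho_zero_right (hs.2.2.1 v (hall (fun r => T1 (r v)) fun j => rho_T1 (hab j)))
        · rw [hk0 a ha]
          by_cases hb : ∃ v, b = c v
          · obtain ⟨w, rfl⟩ := hb
            rw [hkc]
            exact rho_zero_left (hs.2.2.2 w (hall (fun r => T2 (r w)) fun j => rho_T2 (hab j)))
          · rw [hk0 b hb]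
            exact rho_zero
      · intro a ha
        by_cases h : ∃ v, a = c v
        · obtain ⟨v, rfl⟩ := h
          rw [hkc]
          exact hs.2.1 v (hall (fun r => U (r v)) ha)
        · rw [hk0 a h]
          exact Or.inl rfl
    refine hRinv N (fun w => some (k w)) ((hF.tot N k).mp hkC) (fun j => (e j).1) s
      (fun j => (e j).2) ?_
    intro v
    exact congrArg some (hkc v)
  refine ⟨V, inferInstance, hne, impl R, closed_impl R, ?_, ?_⟩
  · rw [hRD]
    exact hRinv
  · intro G hG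
    left
    intro hinv
    rw [hRD] at hinv
    apply hs0R
    exact hinv n f hG (fun i x => x.1 i) s0 hproj hs0

/-! ### The finitely many bounded types -/

/-- Vertices of the bounded types. -/
inductive Vx : Type
  | p | q | z | m | w | x | y

/-- The bounded types. -/
def NB (B : Set (Fin 5)) : Str Vx where
  E a b := (a = Vx.m ∧ b = Vx.w ∧ 3 ∈ B) ∨ (a = Vx.x ∧ b = Vx.y ∧ 4 ∈ B)
  M a := (a = Vx.z ∧ 2 ∈ B) ∨ (a = Vx.m ∧ 3 ∈ B)
  P a := a = Vx.p ∧ 0 ∈ B
  Q a := a = Vx.q ∧ 1 ∈ B

section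
variable {V : Type} (D : Str V)

/-- Adjacency. -/
def adj (a b : V) : Prop := D.E a b ∨ D.E b a

/-- Isolated vertices. -/
def iso (a : V) : Prop := ∀ b, ¬ adj D a b

/-- Vertices reachable from a mark by a walk of length `k`. -/
def reach : ℕ → V → Prop
  | 0, a => D.M a
  | k + 1, a => ∃ b, reach k b ∧ adj D b a

/-- Vertices reachable from a mark. -/
def fin (a : V) : Prop := ∃ k, reach D k a

/-- The features of a structure. -/
def feat : Set (Fin 5) := {i |
  (i = 0 ∧ ∃ v, D.P v ∧ iso D v ∧ ¬ D.M v) ∨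
  (i = 1 ∧ ∃ v, D.Q v ∧ iso D v) ∨
  (i = 2 ∧ ∃ v, D.M v ∧ iso D v) ∨
  (i = 3 ∧ ∃ v, D.M v ∧ ¬ iso D v) ∨
  (i = 4 ∧ ∃ a b, D.E a b ∧ ¬ fin D a)}

theorem feat0 : 0 ∈ feat D ↔ ∃ v, D.P v ∧ iso D v ∧ ¬ D.M v := by simp [feat]
theorem feat1 : 1 ∈ feat D ↔ ∃ v, D.Q v ∧ iso D v := by simp [feat]
theorem feat2 : 2 ∈ feat D ↔ ∃ v, D.M v ∧ iso D v := by simp [feat]
theorem feat3 : 3 ∈ feat D ↔ ∃ v, D.M v ∧ ¬ iso D v := by simp [feat]
theorem feat4 : 4 ∈ feat D ↔ ∃ a b, D.E a b ∧ ¬ fin D a := by simp [feat]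

variable {D}

theorem adj_symm {a b : V} (h : adj D a b) : adj D b a := Or.symm h

theorem fin_adj {a b : V} (h : adj D a b) (ha : fin D a) : fin D b := by
  obtain ⟨k, hk⟩ := ha
  exact ⟨k + 1, a, hk, h⟩

theorem fin_of_M {a : V} (h : D.M a) : fin D a := ⟨0, h⟩

theorem reach_mark {k : ℕ} {a : V} (h : reach D k a) (hi : ¬ iso D a) :
    ∃ v, D.M v ∧ ¬ iso D v := by
  induction k generalizing a with
  | zero => exact ⟨a, h, hi⟩
  | succ k ih =>
    obtain ⟨b, hb, hba⟩ := h
    exact ih hb (fun hiso => hiso a hba)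

theorem iso_E_left {a b : V} (h : D.E a b) : ¬ iso D a := fun hi => hi b (Or.inl h)
theorem iso_E_right {a b : V} (h : D.E a b) : ¬ iso D b := fun hi => hi a (Or.inr h)

theorem reach_parity (hc : Closed D) (hd : ∀ a, ¬ (D.P a ∧ D.Q a)) {k : ℕ} {a : V}
    (h : reach D k a) : (Even k → D.P a) ∧ (Odd k → D.Q a) := by
  induction k generalizing a with
  | zero => exact ⟨fun _ => hc.MP a h, fun h' => absurd h' (by decide)⟩
  | succ k ih =>
    obtain ⟨b, hb, hba⟩ := h
    have ih' := ih hb
    constructor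
    · intro hk
      have hk' : Odd k := by
        rw [Nat.odd_iff]
        rw [Nat.even_iff] at hk
        omega
      rcases hba with h | h
      · exact absurd ⟨hc.EP _ _ h, ih'.2 hk'⟩ (hd b)
      · exact hc.EP _ _ h
    · intro hk
      have hk' : Even k := by
        rw [Nat.even_iff]
        rw [Nat.odd_iff] at hk
        omega
      rcases hba with h | h
      · exact hc.EQ _ _ h
      · exact absurd ⟨ih'.1 hk', hc.EQ _ _ h⟩ (hd b)

open Classical in
/-- The folding onto the bounded type. -/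
noncomputable def kap (D : Str V) (v : V) : Vx :=
  if iso D v then (if D.M v then Vx.z else if D.Q v then Vx.q else Vx.p)
  else if fin D v then (if D.Q v then Vx.w else Vx.m)
  else (if D.Q v then Vx.y else Vx.x)

theorem lemmaA {F : Fam} (hc : Closed D) (hd : ∀ a, ¬ (D.P a ∧ D.Q a)) (h : Inv F D.Sol) :
    Inv F (NB (feat D)).Sol := by
  classical
  have hnQ : ∀ a, D.P a → ¬ D.Q a := fun a h1 h2 => hd a ⟨h1, h2⟩
  -- values of `kap`
  have kM : ∀ v, D.M v → iso D v → kap D v = Vx.z := by
    intro v h1 h2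
    simp [kap, h1, h2]
  have kQ : ∀ v, D.Q v → iso D v → kap D v = Vx.q := by
    intro v h1 h2
    have h3 : ¬ D.M v := fun h => hd v ⟨hc.MP v h, h1⟩
    simp [kap, h1, h2, h3]
  have kP : ∀ v, D.P v → ¬ D.M v → iso D v → kap D v = Vx.p := by
    intro v h1 h2 h3
    simp [kap, h2, h3, hnQ v h1]
  have kmm : ∀ v, D.P v → ¬ iso D v → fin D v → kap D v = Vx.m := by
    intro v h1 h2 h3
    simp [kap, h2, h3, hnQ v h1]
  have kw : ∀ v, D.Q v → ¬ iso D v → fin D v → kap D v = Vx.w := by
    intro v h1 h2 h3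
    simp [kap, h1, h2, h3]
  have kx : ∀ v, D.P v → ¬ iso D v → ¬ fin D v → kap D v = Vx.x := by
    intro v h1 h2 h3
    simp [kap, h2, h3, hnQ v h1]
  have ky : ∀ v, D.Q v → ¬ iso D v → ¬ fin D v → kap D v = Vx.y := by
    intro v h1 h2 h3
    simp [kap, h1, h2, h3]
  have f3 : ∀ v, ¬ iso D v → fin D v → 3 ∈ feat D := by
    rintro v h1 ⟨k, hk⟩
    exact (feat3 D).mpr (reach_mark hk h1)
  have f4 : ∀ v, ¬ iso D v → ¬ fin D v → 4 ∈ feat D := by
    intro v h1 h2
    unfold iso at h1
    push Not at h1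
    obtain ⟨b, hb⟩ := h1
    rw [feat4]
    rcases hb with hb | hb
    · exact ⟨v, b, hb, h2⟩
    · exact ⟨b, v, hb, fun hf => h2 (fin_adj (Or.inl hb) hf)⟩
  have hom : ∀ r ∈ (NB (feat D)).Sol, r ∘ kap D ∈ D.Sol := by
    intro r hr
    have rmw : 3 ∈ feat D → rho (r Vx.m) (r Vx.w) :=
      fun h => hr.1 _ _ (Or.inl ⟨rfl, rfl, h⟩)
    have rxy : 4 ∈ feat D → rho (r Vx.x) (r Vx.y) :=
      fun h => hr.1 _ _ (Or.inr ⟨rfl, rfl, h⟩)
    refine ⟨?_, ?_, ?_, ?_⟩
    · intro a b hab
      show rho (r (kap D a)) (r (kap D b))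
      by_cases hf : fin D a
      · rw [kmm a (hc.EP _ _ hab) (iso_E_left hab) hf,
          kw b (hc.EQ _ _ hab) (iso_E_right hab) (fin_adj (Or.inl hab) hf)]
        exact rmw (f3 a (iso_E_left hab) hf)
      · have hfb : ¬ fin D b := fun h => hf (fin_adj (Or.inr hab) h)
        rw [kx a (hc.EP _ _ hab) (iso_E_left hab) hf,
          ky b (hc.EQ _ _ hab) (iso_E_right hab) hfb]
        exact rxy (f4 a (iso_E_left hab) hf)
    · intro a ha
      show U (r (kap D a))
      by_cases hi : iso D a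
      · rw [kM a ha hi]
        exact hr.2.1 _ (Or.inl ⟨rfl, (feat2 D).mpr ⟨a, ha, hi⟩⟩)
      · rw [kmm a (hc.MP a ha) hi (fin_of_M ha)]
        exact hr.2.1 _ (Or.inr ⟨rfl, (feat3 D).mpr ⟨a, ha, hi⟩⟩)
    · intro a ha
      show T1 (r (kap D a))
      by_cases hi : iso D a
      · by_cases hm : D.M a
        · rw [kM a hm hi]
          exact U_T1 (hr.2.1 _ (Or.inl ⟨rfl, (feat2 D).mpr ⟨a, hm, hi⟩⟩))
        · rw [kP a ha hm hi]
          exact hr.2.2.1 _ ⟨rfl, (feat0 D).mpr ⟨a, ha, hi, hm⟩⟩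
      · by_cases hf : fin D a
        · rw [kmm a ha hi hf]
          exact rho_T1 (rmw (f3 a hi hf))
        · rw [kx a ha hi hf]
          exact rho_T1 (rxy (f4 a hi hf))
    · intro a ha
      show T2 (r (kap D a))
      by_cases hi : iso D a
      · rw [kQ a ha hi]
        exact hr.2.2.2 _ ⟨rfl, (feat1 D).mpr ⟨a, ha, hi⟩⟩
      · by_cases hf : fin D a
        · rw [kw a ha hi hf]
          exact rho_T2 (rmw (f3 a hi hf))
        · rw [ky a ha hi hf]
          exact rho_T2 (rxy (f4 a hi hf))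
  have cov : ∀ φ : (Vx → A) → Prop, (∀ s : Vx → A, s ∘ kap D ∈ D.Sol → φ s) →
      Cov F (NB (feat D)) φ := fun φ hφ => ⟨V, D.Sol, kap D, h, hom, hφ⟩
  refine inv_of_cov ?_ ?_ ?_ ?_
  · rintro a b (⟨rfl, rfl, h3⟩ | ⟨rfl, rfl, h4⟩)
    · refine cov _ ?_
      intro s hs
      obtain ⟨v, hv, hvi⟩ := (feat3 D).mp h3
      unfold iso at hvi
      push Not at hvi
      obtain ⟨b, hb⟩ := hvi
      have hE : D.E v b := by
        rcases hb with hb | hb
        · exact hb
        · exact absurd ⟨hc.MP v hv, hc.EQ _ _ hb⟩ (hd v)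
      have h1 : rho (s (kap D v)) (s (kap D b)) := hs.1 v b hE
      rwa [kmm v (hc.MP v hv) (iso_E_left hE) (fin_of_M hv),
        kw b (hc.EQ _ _ hE) (iso_E_right hE) (fin_adj (Or.inl hE) (fin_of_M hv))] at h1
    · refine cov _ ?_
      intro s hs
      obtain ⟨v, b, hE, hf⟩ := (feat4 D).mp h4
      have hfb : ¬ fin D b := fun h => hf (fin_adj (Or.inr hE) h)
      have h1 : rho (s (kap D v)) (s (kap D b)) := hs.1 v b hE
      rwa [kx v (hc.EP _ _ hE) (iso_E_left hE) hf,
        ky b (hc.EQ _ _ hE) (iso_E_right hE) hfb] at h1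
  · rintro a (⟨rfl, h2⟩ | ⟨rfl, h3⟩)
    · refine cov _ ?_
      intro s hs
      obtain ⟨v, hv, hvi⟩ := (feat2 D).mp h2
      have h1 : U (s (kap D v)) := hs.2.1 v hv
      rwa [kM v hv hvi] at h1
    · refine cov _ ?_
      intro s hs
      obtain ⟨v, hv, hvi⟩ := (feat3 D).mp h3
      have h1 : U (s (kap D v)) := hs.2.1 v hv
      rwa [kmm v (hc.MP v hv) hvi (fin_of_M hv)] at h1
  · rintro a ⟨rfl, h0⟩
    refine cov _ ?_
    intro s hs
    obtain ⟨v, hv, hvi, hvm⟩ := (feat0 D).mp h0
    have h1 : T1 (s (kap D v)) := hs.2.2.1 v hv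
    rwa [kP v hv hvm hvi] at h1
  · rintro a ⟨rfl, h0⟩
    refine cov _ ?_
    intro s hs
    obtain ⟨v, hv, hvi⟩ := (feat1 D).mp h0
    have h1 : T2 (s (kap D v)) := hs.2.2.2 v hv
    rwa [kQ v hv hvi] at h1

/-! ### The level function -/

open Classical in
/-- The level of a vertex. -/
noncomputable def lev (D : Str V) (v : V) : ℕ :=
  if h : fin D v then Nat.find h else if D.Q v then 1 else 0

theorem lev_fin {v : V} (h : fin D v) : reach D (lev D v) v := by
  classical
  have h1 : lev D v = Nat.find h := dif_pos h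
  rw [h1]
  exact Nat.find_spec h

theorem lev_le {v : V} {k : ℕ} (h : reach D k v) : lev D v ≤ k := by
  classical
  have hf : fin D v := ⟨k, h⟩
  have h1 : lev D v = Nat.find hf := dif_pos hf
  rw [h1]
  exact Nat.find_min' hf h

theorem lev_M {v : V} (h : D.M v) : lev D v = 0 := Nat.le_zero.mp (lev_le (k := 0) h)

theorem lev_P (hc : Closed D) (hd : ∀ a, ¬ (D.P a ∧ D.Q a)) {v : V} (h : D.P v) :
    Even (lev D v) := by
  classical
  by_cases hf : fin D v
  · by_contra hcon
    exact hd v ⟨h, (reach_parity hc hd (lev_fin hf)).2 (Nat.not_even_iff_odd.mp hcon)⟩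
  · have h1 : lev D v = 0 := by
      unfold lev
      rw [dif_neg hf, if_neg (fun hq => hd v ⟨h, hq⟩)]
    rw [h1]
    exact Even.zero

theorem lev_Q (hc : Closed D) (hd : ∀ a, ¬ (D.P a ∧ D.Q a)) {v : V} (h : D.Q v) :
    Odd (lev D v) := by
  classical
  by_cases hf : fin D v
  · by_contra hcon
    exact hd v ⟨(reach_parity hc hd (lev_fin hf)).1 (Nat.not_odd_iff_even.mp hcon), h⟩
  · have h1 : lev D v = 1 := by
      unfold lev
      rw [dif_neg hf, if_pos h]
    rw [h1]
    exact odd_one

theorem lev_adj {a b : V} (h : adj D a b) (hf : fin D a) : lev D b ≤ lev D a + 1 :=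
  lev_le ⟨a, lev_fin hf, h⟩

theorem lev_E (hc : Closed D) (hd : ∀ a, ¬ (D.P a ∧ D.Q a)) {a b : V} (h : D.E a b) :
    Even (lev D a) ∧ Odd (lev D b) ∧ (lev D a + 1 = lev D b ∨ lev D b + 1 = lev D a) := by
  classical
  have h1 := lev_P hc hd (hc.EP _ _ h)
  have h2 := lev_Q hc hd (hc.EQ _ _ h)
  refine ⟨h1, h2, ?_⟩
  by_cases hf : fin D a
  · have hfb : fin D b := fin_adj (Or.inl h) hf
    have h3 := lev_adj (Or.inl h) hf
    have h4 := lev_adj (D := D) (a := b) (b := a) (Or.inr h) hfb
    rw [Nat.even_iff] at h1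
    rw [Nat.odd_iff] at h2
    omega
  · have hfb : ¬ fin D b := fun h' => hf (fin_adj (Or.inr h) h')
    left
    unfold lev
    rw [dif_neg hf, dif_neg hfb, if_neg (fun hq => hd a ⟨hc.EP _ _ h, hq⟩),
      if_pos (hc.EQ _ _ h)]

/-- Finite edges generate paths. -/
theorem path_of_edge {F : Fam} (hc : Closed D) (hd : ∀ a, ¬ (D.P a ∧ D.Q a))
    (h : Inv F D.Sol) {a b : V} (hE : D.E a b) (hf : fin D a) :
    Inv F (path (max (lev D a) (lev D b))).Sol := by
  have h1 := lev_E hc hd hE
  refine lemmaB h (lev D) (fun _ h => lev_M h) (fun _ _ h => lev_E hc hd h)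
    (fun _ h => lev_P hc hd h) (fun _ h => lev_Q hc hd h) ?_ ?_ ⟨a, b, hE, ?_, ?_, ?_⟩
  · omega
  · obtain ⟨k, hk⟩ := hf
    obtain ⟨v, hv, _⟩ := reach_mark hk (iso_E_left hE)
    exact ⟨v, hv⟩
  · omega
  · exact le_max_left _ _
  · exact le_max_right _ _

theorem reach_walk {k : ℕ} {a : V} (h : reach D k a) :
    ∃ w : ℕ → V, (∀ i ≤ k, reach D i (w i)) ∧ (∀ i < k, adj D (w i) (w (i + 1))) ∧ w k = a := by
  induction k generalizing a with
  | zero => exact ⟨fun _ => a, fun i hi => by rw [Nat.le_zero.mp hi]; exact h,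
      fun i hi => absurd hi (Nat.not_lt_zero i), rfl⟩
  | succ k ih =>
    obtain ⟨b, hb, hba⟩ := h
    obtain ⟨w, h1, h2, h3⟩ := ih hb
    refine ⟨fun i => if i ≤ k then w i else a, ?_, ?_, ?_⟩
    · intro i hi
      by_cases hik : i ≤ k
      · simp only [hik, if_true]
        exact h1 i hik
      · have : i = k + 1 := by omega
        subst this
        simp only [hik, if_false]
        exact ⟨b, hb, hba⟩
    · intro i hi
      by_cases hik : i + 1 ≤ k
      · have : i ≤ k := by omega
        simp only [hik, this, if_true]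
        exact h2 i (by omega)
      · have : i = k := by omega
        subst this
        simp only [le_refl, hik, if_true, if_false]
        rw [h3]
        exact hba
    · have : ¬ (k + 1 ≤ k) := by omega
      simp only [this, if_false]

/-- Finite edges are covered by paths. -/
theorem cov_edge {F : Fam} (hc : Closed D) (hd : ∀ a, ¬ (D.P a ∧ D.Q a)) {a b : V}
    (hE : D.E a b) (hf : fin D a) (hpath : Inv F (path (max (lev D a) (lev D b))).Sol) :
    Cov F D (fun s => rho (s a) (s b)) := by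
  have hl := lev_E hc hd hE
  have hfb : fin D b := fin_adj (Or.inl hE) hf
  -- a walk ending in the edge
  obtain ⟨w, hw1, hw2, hw3⟩ : ∃ w : ℕ → V, (∀ i ≤ max (lev D a) (lev D b), reach D i (w i)) ∧
      (∀ i < max (lev D a) (lev D b), adj D (w i) (w (i + 1))) ∧
      (w (lev D a) = a ∧ w (lev D b) = b) := by
    rcases hl.2.2 with h | h
    · obtain ⟨w, h1, h2, h3⟩ := reach_walk (lev_fin hf)
      have hmax : max (lev D a) (lev D b) = lev D a + 1 := by omega
      rw [hmax]
      refine ⟨fun i => if i ≤ lev D a then w i else b, ?_, ?_, ?_, ?_⟩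
      · intro i hi
        by_cases hik : i ≤ lev D a
        · simp only [hik, if_true]
          exact h1 i hik
        · have : i = lev D a + 1 := by omega
          subst this
          simp only [hik, if_false]
          exact ⟨a, lev_fin hf, Or.inl hE⟩
      · intro i hi
        by_cases hik : i + 1 ≤ lev D a
        · have : i ≤ lev D a := by omega
          simp only [hik, this, if_true]
          exact h2 i (by omega)
        · have : i = lev D a := by omega
          subst this
          simp only [le_refl, hik, if_true, if_false]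
          rw [h3]
          exact Or.inl hE
      · simp only [le_refl, if_true]
        exact h3
      · have : ¬ (lev D b ≤ lev D a) := by omega
        simp only [this, if_false]
    · obtain ⟨w, h1, h2, h3⟩ := reach_walk (lev_fin hfb)
      have hmax : max (lev D a) (lev D b) = lev D b + 1 := by omega
      rw [hmax]
      refine ⟨fun i => if i ≤ lev D b then w i else a, ?_, ?_, ?_, ?_⟩
      · intro i hi
        by_cases hik : i ≤ lev D b
        · simp only [hik, if_true]
          exact h1 i hik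
        · have : i = lev D b + 1 := by omega
          subst this
          simp only [hik, if_false]
          exact ⟨b, lev_fin hfb, Or.inr hE⟩
      · intro i hi
        by_cases hik : i + 1 ≤ lev D b
        · have : i ≤ lev D b := by omega
          simp only [hik, this, if_true]
          exact h2 i (by omega)
        · have : i = lev D b := by omega
          subst this
          simp only [le_refl, hik, if_true, if_false]
          rw [h3]
          exact Or.inr hE
      · have : ¬ (lev D a ≤ lev D b) := by omega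
        simp only [this, if_false]
      · simp only [le_refl, if_true]
        exact h3
  refine ⟨ℕ, (path (max (lev D a) (lev D b))).Sol, w, hpath, ?_, ?_⟩
  · intro r hr
    refine ⟨?_, ?_, fun _ h => h.elim, fun _ h => h.elim⟩
    · rintro i j ⟨hi, hj, hij, hin, hjn⟩
      have hPi : D.P (w i) := (reach_parity hc hd (hw1 i hin)).1 hi
      have hadj : adj D (w i) (w j) := by
        rcases hij with h | h
        · subst h
          exact hw2 i (by omega)
        · subst h
          exact adj_symm (hw2 j (by omega))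
      show rho (r (w i)) (r (w j))
      rcases hadj with h | h
      · exact hr.1 _ _ h
      · exact absurd ⟨hPi, hc.EQ _ _ h⟩ (hd _)
    · intro i hi
      have hi0 : i = 0 := hi
      subst hi0
      exact hr.2.1 (w 0) (hw1 0 (Nat.zero_le _))
  · intro s hs
    have h1 := hs.1 (lev D a) (lev D b) ⟨hl.1, hl.2.1, hl.2.2, le_max_left _ _, le_max_right _ _⟩
    have h2 : rho (s (w (lev D a))) (s (w (lev D b))) := h1
    rwa [hw3.1, hw3.2] at h2

theorem lemmaC {F : Fam} [Nonempty V] (hc : Closed D) (hd : ∀ a, ¬ (D.P a ∧ D.Q a))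
    (hB : Inv F (NB (feat D)).Sol)
    (hpath : ∀ a b, D.E a b → fin D a → Inv F (path (max (lev D a) (lev D b))).Sol) :
    Inv F D.Sol := by
  classical
  -- representatives
  have rp : ∃ v, 0 ∈ feat D → D.P v := by
    by_cases h : 0 ∈ feat D
    · obtain ⟨v, hv, _⟩ := (feat0 D).mp h
      exact ⟨v, fun _ => hv⟩
    · exact ⟨Classical.arbitrary V, fun h' => absurd h' h⟩
  have rq : ∃ v, 1 ∈ feat D → D.Q v := by
    by_cases h : 1 ∈ feat D
    · obtain ⟨v, hv, _⟩ := (feat1 D).mp h
      exact ⟨v, fun _ => hv⟩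
    · exact ⟨Classical.arbitrary V, fun h' => absurd h' h⟩
  have rz : ∃ v, 2 ∈ feat D → D.M v := by
    by_cases h : 2 ∈ feat D
    · obtain ⟨v, hv, _⟩ := (feat2 D).mp h
      exact ⟨v, fun _ => hv⟩
    · exact ⟨Classical.arbitrary V, fun h' => absurd h' h⟩
  have rm : ∃ v w, 3 ∈ feat D → (D.M v ∧ D.E v w) := by
    by_cases h : 3 ∈ feat D
    · obtain ⟨v, hv, hvi⟩ := (feat3 D).mp h
      unfold iso at hvi
      push Not at hvi
      obtain ⟨b, hb⟩ := hvi
      refine ⟨v, b, fun _ => ⟨hv, ?_⟩⟩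
      rcases hb with hb | hb
      · exact hb
      · exact absurd ⟨hc.MP v hv, hc.EQ _ _ hb⟩ (hd v)
    · exact ⟨Classical.arbitrary V, Classical.arbitrary V, fun h' => absurd h' h⟩
  have rx : ∃ v w, 4 ∈ feat D → D.E v w := by
    by_cases h : 4 ∈ feat D
    · obtain ⟨v, w, hE, _⟩ := (feat4 D).mp h
      exact ⟨v, w, fun _ => hE⟩
    · exact ⟨Classical.arbitrary V, Classical.arbitrary V, fun h' => absurd h' h⟩
  obtain ⟨p0, hp0⟩ := rp
  obtain ⟨q0, hq0⟩ := rq
  obtain ⟨z0, hz0⟩ := rz
  obtain ⟨m0, w0, hm0⟩ := rm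
  obtain ⟨x0, y0, hx0⟩ := rx
  have key : ∀ (p q z m w x y : V), (0 ∈ feat D → D.P p) → (1 ∈ feat D → D.Q q) →
      (2 ∈ feat D → D.M z) → (3 ∈ feat D → (D.M m ∧ D.E m w)) → (4 ∈ feat D → D.E x y) →
      ∀ φ : (V → A) → Prop,
      (∀ s : V → A, (0 ∈ feat D → T1 (s p)) → (1 ∈ feat D → T2 (s q)) → (2 ∈ feat D → U (s z)) →
        (3 ∈ feat D → U (s m)) → (4 ∈ feat D → rho (s x) (s y)) → φ s) → Cov F D φ := by
    intro p q z m w x y hp hq hz hm hx φ hφ
    let τ : Vx → V := fun i => match i with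
      | Vx.p => p
      | Vx.q => q
      | Vx.z => z
      | Vx.m => m
      | Vx.w => w
      | Vx.x => x
      | Vx.y => y
    refine ⟨Vx, (NB (feat D)).Sol, τ, hB, ?_, ?_⟩
    · intro r hr
      refine ⟨?_, ?_, ?_, ?_⟩
      · rintro a b (⟨rfl, rfl, h⟩ | ⟨rfl, rfl, h⟩)
        · exact hr.1 m w (hm h).2
        · exact hr.1 x y (hx h)
      · rintro a (⟨rfl, h⟩ | ⟨rfl, h⟩)
        · exact hr.2.1 z (hz h)
        · exact hr.2.1 m (hm h).1
      · rintro a ⟨rfl, h⟩
        exact hr.2.2.1 p (hp h)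
      · rintro a ⟨rfl, h⟩
        exact hr.2.2.2 q (hq h)
    · intro s hs
      refine hφ s ?_ ?_ ?_ ?_ ?_
      · exact fun h => hs.2.2.1 Vx.p ⟨rfl, h⟩
      · exact fun h => hs.2.2.2 Vx.q ⟨rfl, h⟩
      · exact fun h => hs.2.1 Vx.z (Or.inl ⟨rfl, h⟩)
      · exact fun h => hs.2.1 Vx.m (Or.inr ⟨rfl, h⟩)
      · exact fun h => hs.1 Vx.x Vx.y (Or.inr ⟨rfl, rfl, h⟩)
  have hEc : ∀ a b, D.E a b → Cov F D (fun s => rho (s a) (s b)) := by
    intro a b hE
    by_cases hf : fin D a
    · exact cov_edge hc hd hE hf (hpath a b hE hf)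
    · have h4 : 4 ∈ feat D := (feat4 D).mpr ⟨a, b, hE, hf⟩
      exact key p0 q0 z0 m0 w0 a b hp0 hq0 hz0 hm0 (fun _ => hE) _
        (fun s _ _ _ _ h => h h4)
  have hMc : ∀ a, D.M a → Cov F D (fun s => U (s a)) := by
    intro a ha
    by_cases hi : iso D a
    · have h2 : 2 ∈ feat D := (feat2 D).mpr ⟨a, ha, hi⟩
      exact key p0 q0 a m0 w0 x0 y0 hp0 hq0 (fun _ => ha) hm0 hx0 _ (fun s _ _ h _ _ => h h2)
    · have h3 : 3 ∈ feat D := (feat3 D).mpr ⟨a, ha, hi⟩
      unfold iso at hi
      push Not at hi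
      obtain ⟨b, hb⟩ := hi
      have hE : D.E a b := by
        rcases hb with hb | hb
        · exact hb
        · exact absurd ⟨hc.MP a ha, hc.EQ _ _ hb⟩ (hd a)
      exact key p0 q0 z0 a b x0 y0 hp0 hq0 hz0 (fun _ => ⟨ha, hE⟩) hx0 _
        (fun s _ _ _ h _ => h h3)
  refine inv_of_cov hEc hMc ?_ ?_
  · intro a ha
    by_cases hi : iso D a
    · by_cases hm : D.M a
      · exact (hMc a hm).mono fun s h => U_T1 h
      · have h0 : 0 ∈ feat D := (feat0 D).mpr ⟨a, ha, hi, hm⟩
        exact key a q0 z0 m0 w0 x0 y0 (fun _ => ha) hq0 hz0 hm0 hx0 _ (fun s h _ _ _ _ => h h0)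
    · unfold iso at hi
      push Not at hi
      obtain ⟨b, hb⟩ := hi
      rcases hb with hb | hb
      · exact (hEc a b hb).mono fun s h => rho_T1 h
      · exact absurd ⟨ha, hc.EQ _ _ hb⟩ (hd a)
  · intro a ha
    by_cases hi : iso D a
    · have h1 : 1 ∈ feat D := (feat1 D).mpr ⟨a, ha, hi⟩
      exact key p0 a z0 m0 w0 x0 y0 hp0 (fun _ => ha) hz0 hm0 hx0 _ (fun s _ h _ _ _ => h h1)
    · unfold iso at hi
      push Not at hi
      obtain ⟨b, hb⟩ := hi
      rcases hb with hb | hb
      · exact absurd ⟨hc.EP _ _ hb, ha⟩ (hd a)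
      · exact (hEc b a hb).mono fun s h => rho_T2 h

end

/-! ### The interval is countable -/

/-- The data determining a member of the interval. -/
def data (F : Fam) : Set (Set (Fin 5)) × Set ℕ :=
  ({B | Inv F (NB B).Sol}, {n | 1 ≤ n ∧ Inv F (path n).Sol})

theorem data_le {F G : Fam} (hF : IsI F) (hG : IsI G) (h : data F = data G) (n : ℕ) :
    F n ⊆ G n := by
  intro f hf
  by_contra hfG
  obtain ⟨V, hV, hne, D, hc, hinv, hno⟩ := exists_str hG hfG
  rcases hno F hf with hno | hno
  swap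
  · exact hno hF
  apply hno
  by_cases hz : ∃ z, D.P z ∧ D.Q z
  · obtain ⟨z, h1, h2⟩ := hz
    exact inv_zero hF D z h1 h2
  · have hd : ∀ a, ¬ (D.P a ∧ D.Q a) := fun a ha => hz ⟨a, ha⟩
    refine lemmaC hc hd ?_ ?_
    · have h1 : feat D ∈ (data G).1 := lemmaA hc hd hinv
      rw [← h] at h1
      exact h1
    · intro a b hE hf
      have h1 : max (lev D a) (lev D b) ∈ (data G).2 := by
        refine ⟨?_, path_of_edge hc hd hinv hE hf⟩
        have := lev_E hc hd hE
        omega
      rw [← h] at h1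
      exact h1.2

theorem data_inj : Set.InjOn data {F | IsI F} := by
  intro F hF G hG h
  funext n
  exact Set.Subset.antisymm (data_le hF hG h n) (data_le hG hF h.symm n)

theorem lower_countable :
    {S : Set ℕ | ∀ n ∈ S, ∀ m, 1 ≤ m → m ≤ n → m ∈ S}.Countable := by
  have hsub : {S : Set ℕ | ∀ n ∈ S, ∀ m, 1 ≤ m → m ≤ n → m ∈ S} ⊆
      Set.range (fun t : Option ℕ × Prop => {n : ℕ | (n = 0 ∧ t.2) ∨
        (1 ≤ n ∧ ∀ k, t.1 = some k → n ≤ k)}) := by
    intro S hS
    by_cases hb : BddAbove S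
    · obtain ⟨k, hk⟩ := hb
      by_cases hne : ∃ n ∈ S, 1 ≤ n
      · obtain ⟨n0, hn0, hn1⟩ := hne
        have hSk : sSup S ∈ S := Nat.sSup_mem ⟨n0, hn0⟩ ⟨k, hk⟩
        refine ⟨(some (sSup S), 0 ∈ S), ?_⟩
        ext n
        simp only [Set.mem_ofPred_eq, Option.some.injEq, forall_eq']
        constructor
        · rintro (⟨rfl, h⟩ | ⟨h1, h2⟩)
          · exact h
          · exact hS _ hSk n h1 h2
        · intro hn
          rcases Nat.eq_zero_or_pos n with h0 | h0
          · subst h0
            exact Or.inl ⟨rfl, hn⟩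
          · exact Or.inr ⟨h0, le_csSup ⟨k, hk⟩ hn⟩
      · push Not at hne
        refine ⟨(some 0, 0 ∈ S), ?_⟩
        ext n
        simp only [Set.mem_ofPred_eq, Option.some.injEq, forall_eq']
        constructor
        · rintro (⟨rfl, h⟩ | ⟨h1, h2⟩)
          · exact h
          · omega
        · intro hn
          have := hne n hn
          have h0 : n = 0 := by omega
          subst h0
          exact Or.inl ⟨rfl, hn⟩
    · refine ⟨(none, 0 ∈ S), ?_⟩
      ext n
      simp only [Set.mem_ofPred_eq, reduceCtorEq, false_imp_iff, implies_true, and_true]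
      constructor
      · rintro (⟨rfl, h⟩ | h1)
        · exact h
        · obtain ⟨m, hm, hmn⟩ := not_bddAbove_iff.mp hb n
          exact hS m hm n h1 hmn.le
      · intro hn
        rcases Nat.eq_zero_or_pos n with h0 | h0
        · subst h0
          exact Or.inl ⟨rfl, hn⟩
        · exact Or.inr h0
  exact (Set.countable_range _).mono hsub

theorem countable_isI : {F : Fam | IsI F}.Countable := by
  have hmaps : Set.MapsTo data {F | IsI F}
      (Set.univ ×ˢ {S : Set ℕ | ∀ n ∈ S, ∀ m, 1 ≤ m → m ≤ n → m ∈ S}) := by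
    intro F hF
    refine ⟨trivial, ?_⟩
    intro n hn m h1 h2
    exact ⟨h1, path_mono h1 h2 hn.2⟩
  exact hmaps.countable_of_injOn data_inj (Set.countable_univ.prod lower_countable)

end Pool.Agent.MP_2c0439_al
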