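import Pool.Agent.Lib.MP_2c0439_al.Basic

set_option autoImplicit false

namespace Pool.Agent.MP_2c0439_al

/-- The family of all operations preserving the path of length `N ≥ 2` lies in the interval. -/
theorem isI_pPol_path {N : ℕ} (hN : 2 ≤ N) : IsI (pPol (path N).Sol) where
  proj := by
    intro n i r s hr hs
    have : s = r i := by
      funext v
      have := hs v
      simpa using this.symm
    rw [this]
    exact hr i
  comp := by
    intro n m f g h hf hg hh r s hr hs
    have h1 : ∀ v, ∃ y : Fin (n+1) → A, (∀ i, g i (fun j => r j v) = some (y i)) ∧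
        f y = some (s v) := fun v => (hh _ _).mp (hs v)
    choose y hy1 hy2 using h1
    exact hf (fun i v => y v i) s (fun i => hg i r _ hr (fun v => hy1 v i)) hy2
  res := by
    intro n f h hf hh r s hr hs
    exact hf r s hr (fun v => hh _ _ (hs v))
  tot := by
    intro n f
    constructor
    · rintro ⟨h1, h2⟩ r s hr hs
      have hs' : s = fun v => f (fun i => r i v) := by
        funext v
        have := hs v
        simpa using this.symm
      subst hs'
      refine ⟨fun a b hab => h1 _ _ (fun i => (hr i).1 a b hab),
        fun a ha => h2 _ (fun i => (hr i).2.1 a ha), fun _ h => h.elim, fun _ h => h.elim⟩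
    · intro hf
      constructor
      · intro a b hab
        have h1 : (fun v : ℕ => f (fun i => if v = 2 then a i else if v = 1 then b i else 0)) ∈
            (path N).Sol := by
          refine hf (fun i v => if v = 2 then a i else if v = 1 then b i else 0) _ ?_
            (fun v => rfl)
          intro i
          refine ⟨?_, ?_, fun _ h => h.elim, fun _ h => h.elim⟩
          · rintro v w ⟨hv, hw, hvw, _, _⟩
            have hv1 : v ≠ 1 := by
              rintro rfl
              exact absurd hv (by decide)
            have hw2 : w ≠ 2 := by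
              rintro rfl
              exact absurd hw (by decide)
            simp only [hw2, hv1, if_false]
            by_cases hv2 : v = 2
            · simp only [hv2, if_true]
              by_cases hw1 : w = 1
              · simp only [hw1, if_true]
                exact hab i
              · simp only [hw1, if_false]
                exact rho_zero_right (rho_T1 (hab i))
            · simp only [hv2, if_false]
              by_cases hw1 : w = 1
              · simp only [hw1, if_true]
                exact rho_zero_left (rho_T2 (hab i))
              · simp only [hw1, if_false]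
                exact rho_zero
          · intro v hv
            have hv0 : v = 0 := hv
            subst hv0
            exact Or.inl rfl
        have h2 := h1.1 2 1 ⟨by decide, by decide, Or.inr rfl, hN, by omega⟩
        simpa using h2
      · intro a ha
        have h1 : (fun v : ℕ => f (fun i => if v = 0 then a i else 0)) ∈ (path N).Sol := by
          refine hf (fun i v => if v = 0 then a i else 0) _ ?_ (fun v => rfl)
          intro i
          refine ⟨?_, ?_, fun _ h => h.elim, fun _ h => h.elim⟩
          · rintro v w ⟨hv, hw, hvw, _, _⟩
            have hw0 : w ≠ 0 := by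
              rintro rfl
              exact absurd hw (by decide)
            simp only [hw0, if_false]
            by_cases hv0 : v = 0
            · simp only [hv0, if_true]
              exact rho_zero_right (U_T1 (ha i))
            · simp only [hv0, if_false]
              exact rho_zero
          · intro v hv
            have hv0 : v = 0 := hv
            subst hv0
            exact ha i
        have h2 := h1.2.1 0 rfl
        simpa using h2

/-- The value used by the separating solutions. -/
def val (v : ℕ) : A := if v = 0 then 1 else if v % 2 = 1 then 3 else 2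

theorem val_ne_zero (v : ℕ) : val v ≠ 0 := by
  unfold val
  split_ifs <;> decide

theorem val_T1 {v : ℕ} (h : Even v) : T1 (val v) := by
  rw [Nat.even_iff] at h
  unfold val
  split_ifs with h1 h2
  · decide
  · omega
  · decide

theorem val_T2 {v : ℕ} (h : Odd v) : T2 (val v) := by
  rw [Nat.odd_iff] at h
  unfold val
  rw [if_neg (by omega), if_pos h]
  decide

/-- Adjacency in the infinite path. -/
def Adj (a b : ℕ) : Prop := a + 1 = b ∨ b + 1 = a

instance (a b : ℕ) : Decidable (Adj a b) := by unfold Adj; infer_instance

/-- The separating solutions. -/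
def sep (a b v : ℕ) : A := if Adj a b then 0 else if v = a ∨ v = b then val v else 0

theorem sep_sol (m a b : ℕ) : sep a b ∈ (path m).Sol := by
  refine ⟨?_, ?_, fun _ h => h.elim, fun _ h => h.elim⟩
  · rintro v w ⟨hv, hw, hvw, _, _⟩
    unfold sep
    by_cases hab : Adj a b
    · simp only [hab, if_true]
      exact rho_zero
    · simp only [hab, if_false]
      by_cases h1 : v = a ∨ v = b
      · by_cases h2 : w = a ∨ w = b
        · exfalso
          apply hab
          unfold Adj
          omega
        · simp only [h1, h2, if_true, if_false]
          exact rho_zero_right (val_T1 hv)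
      · by_cases h2 : w = a ∨ w = b
        · simp only [h1, h2, if_true, if_false]
          exact rho_zero_left (val_T2 hw)
        · simp only [h1, h2, if_false]
          exact rho_zero
  · intro v hv
    have hv0 : v = 0 := hv
    subst hv0
    unfold sep
    split_ifs
    · exact Or.inl rfl
    · exact Or.inr rfl
    · exact Or.inl rfl

theorem not_adj_self (a : ℕ) : ¬ Adj a a := by unfold Adj; omega

theorem sep_self (a v : ℕ) : sep a a v = if v = a then val v else 0 := by
  unfold sep
  rw [if_neg (not_adj_self a)]
  simp

theorem sep_rho {m : ℕ} {a b : ℕ} (ha : a ≤ m) (hb : b ≤ m)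
    (h : ∀ c d, c ≤ m → d ≤ m → rho (sep c d a) (sep c d b)) : Even a ∧ Odd b ∧ Adj a b := by
  have hadj : Adj a b := by
    by_contra hab
    have h1 := h a b ha hb
    unfold sep at h1
    simp only [hab, if_false, true_or, or_true, if_true] at h1
    rcases h1.2.2 with h2 | h2
    · exact val_ne_zero _ h2
    · exact val_ne_zero _ h2
  have hne : a ≠ b := by
    rintro rfl
    exact not_adj_self _ hadj
  refine ⟨?_, ?_, hadj⟩
  · have h1 := rho_T1 (h a a ha ha)
    rw [sep_self, if_pos rfl] at h1
    by_contra h2
    rw [Nat.even_iff] at h2
    apply h1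
    unfold val
    rw [if_neg (by omega), if_pos (by omega)]
  · have h1 := rho_T2 (h b b hb hb)
    rw [sep_self, if_pos rfl] at h1
    by_contra h2
    rw [Nat.odd_iff] at h2
    unfold val at h1
    by_cases hb0 : b = 0
    · rw [if_pos hb0] at h1
      exact absurd h1 (by decide)
    · rw [if_neg hb0, if_neg h2] at h1
      exact absurd h1 (by decide)

theorem sep_U {m : ℕ} {a : ℕ} (ha : a ≤ m)
    (h : ∀ c d, c ≤ m → d ≤ m → U (sep c d a)) : a = 0 := by
  have h1 := h a a ha ha
  rw [sep_self, if_pos rfl] at h1
  by_contra h2
  unfold val at h1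
  rw [if_neg h2] at h1
  split_ifs at h1 <;> exact absurd h1 (by decide)

theorem sep_inj {m : ℕ} {a b : ℕ} (ha : a ≤ m)
    (h : ∀ c d, c ≤ m → d ≤ m → sep c d a = sep c d b) : a = b := by
  have h1 := h a a ha ha
  rw [sep_self, sep_self, if_pos rfl] at h1
  by_contra h2
  rw [if_neg (Ne.symm h2)] at h1
  exact val_ne_zero _ h1

/-- The violating assignment. -/
def bad (m v : ℕ) : A := if v = m ∨ v + 1 = m then val v else 0

open Classical in
/-- The path of length `m` is not preserved by everything that preserves the path of length
`n < m`. -/
theorem not_inv {n m : ℕ} (hn : 2 ≤ n) (hnm : n < m) :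
    ¬ Inv (pPol (path n).Sol) (path m).Sol := by
  intro hinv
  obtain ⟨N, e, he⟩ := exists_enum (J := Fin (m + 1) × Fin (m + 1))
  let c : ℕ → Fin (N + 1) → A := fun v j => sep (e j).1 (e j).2 v
  have hc : ∀ (φ : A → Prop) (v : ℕ), (∀ j, φ (c v j)) →
      ∀ a b, a ≤ m → b ≤ m → φ (sep a b v) := by
    intro φ v h a b ha hb
    obtain ⟨j, hj⟩ := he (⟨a, by omega⟩, ⟨b, by omega⟩)
    have := h j
    simp only [c, hj] at this
    exact this
  have hcrho : ∀ v w, v ≤ m → w ≤ m → (∀ j, rho (c v j) (c w j)) → Even v ∧ Odd w ∧ Adj v w := by
    intro v w hv hw h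
    refine sep_rho hv hw ?_
    intro a b ha hb
    obtain ⟨j, hj⟩ := he (⟨a, by omega⟩, ⟨b, by omega⟩)
    have := h j
    simp only [c, hj] at this
    exact this
  have hcinj : ∀ v w, v ≤ m → c v = c w → v = w := by
    intro v w hv h
    refine sep_inj hv ?_
    intro a b ha hb
    obtain ⟨j, hj⟩ := he (⟨a, by omega⟩, ⟨b, by omega⟩)
    have := congrFun h j
    simp only [c, hj] at this
    exact this
  let f : (Fin (N + 1) → A) → Option A := fun x =>
    if h : ∃ v, v ≤ m ∧ x = c v then some (bad m h.choose) else none
  have hfc : ∀ v, v ≤ m → f (c v) = some (bad m v) := by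
    intro v hv
    have h : ∃ w, w ≤ m ∧ c v = c w := ⟨v, hv, rfl⟩
    have h1 : f (c v) = some (bad m h.choose) := dif_pos h
    rw [h1, ← hcinj v h.choose hv h.choose_spec.2]
  have hfsome : ∀ x b, f x = some b → ∃ v, v ≤ m ∧ x = c v ∧ b = bad m v := by
    intro x b hx
    by_cases h : ∃ v, v ≤ m ∧ x = c v
    · obtain ⟨v, hv, rfl⟩ := h
      rw [hfc v hv] at hx
      exact ⟨v, hv, rfl, (Option.some.inj hx).symm⟩
    · have h1 : f x = none := dif_neg h
      rw [h1] at hx
      exact absurd hx (by simp)
  have hf : f ∈ pPol (path n).Sol N := by
    intro t s ht hs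
    have h1 : ∀ v, ∃ w, w ≤ m ∧ (fun i => t i v) = c w ∧ s v = bad m w :=
      fun v => hfsome _ _ (hs v)
    choose τ hτm hτc hτs using h1
    have hadj : ∀ v w, (path n).E v w → Even (τ v) ∧ Odd (τ w) ∧ Adj (τ v) (τ w) := by
      intro v w hvw
      refine hcrho _ _ (hτm v) (hτm w) ?_
      intro j
      have h2 := (ht j).1 v w hvw
      rw [← hτc v, ← hτc w]
      exact h2
    have h0 : τ 0 = 0 := by
      refine sep_U (hτm 0) (hc U (τ 0) ?_)
      intro j
      have h2 := (ht j).2.1 0 rfl
      rw [← hτc 0]
      exact h2
    have hle : ∀ v, v ≤ n → τ v ≤ v := by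
      intro v
      induction v with
      | zero => intro _; rw [h0]
      | succ v ih =>
        intro hv
        have ih' := ih (by omega)
        have h3 : Adj (τ v) (τ (v + 1)) := by
          rcases Nat.even_or_odd v with h | h
          · exact (hadj v (v + 1) ⟨h, h.add_one, Or.inl rfl, by omega, hv⟩).2.2
          · have h4 := (hadj (v + 1) v ⟨h.add_one, h, Or.inr rfl, hv, by omega⟩).2.2
            unfold Adj at h4 ⊢
            omega
        unfold Adj at h3
        omega
    have hbad0 : ∀ v, v + 1 < m → bad m v = 0 := by
      intro v hv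
      unfold bad
      rw [if_neg (by omega)]
    refine ⟨?_, ?_, fun _ h => h.elim, fun _ h => h.elim⟩
    · intro v w hvw
      obtain ⟨h2, h3, h4⟩ := hadj v w hvw
      obtain ⟨_, _, _, hvn, hwn⟩ := hvw
      have h5 := hle v hvn
      have h6 := hle w hwn
      rw [hτs v, hτs w]
      unfold Adj at h4
      rcases h4 with h4 | h4
      · rw [hbad0 (τ v) (by omega)]
        refine rho_zero_left ?_
        unfold bad
        split_ifs
        · exact val_T2 h3
        · exact Or.inl rfl
      · rw [hbad0 (τ w) (by omega)]
        refine rho_zero_right ?_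
        unfold bad
        split_ifs
        · exact val_T1 h2
        · decide
    · intro v hv
      have hv0 : v = 0 := hv
      subst hv0
      rw [hτs 0, h0, hbad0 0 (by omega)]
      exact Or.inl rfl
  -- `f` does not preserve the path of length `m`
  have hS := hinv N f hf (fun j v => if v ≤ m then sep (e j).1 (e j).2 v else sep (e j).1 (e j).2 0)
    (fun v => if v ≤ m then bad m v else bad m 0) ?_ ?_
  · have hpar : ∃ a b, (path m).E a b ∧ (a = m ∨ a + 1 = m) ∧ (b = m ∨ b + 1 = m) := by
      rcases Nat.even_or_odd m with h | h
      · refine ⟨m, m - 1, ⟨h, ?_, Or.inr (by omega), le_rfl, by omega⟩, Or.inl rfl,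
          Or.inr (by omega)⟩
        rw [Nat.odd_iff]
        rw [Nat.even_iff] at h
        omega
      · refine ⟨m - 1, m, ⟨?_, h, Or.inl (by omega), by omega, le_rfl⟩, Or.inr (by omega),
          Or.inl rfl⟩
        rw [Nat.even_iff]
        rw [Nat.odd_iff] at h
        omega
    obtain ⟨a, b, hab, ha, hb⟩ := hpar
    have h1 := hS.1 a b hab
    have ham : a ≤ m := by omega
    have hbm : b ≤ m := by omega
    simp only [ham, hbm, if_true] at h1
    unfold bad at h1
    rw [if_pos ha, if_pos hb] at h1
    rcases h1.2.2 with h | h
    · exact val_ne_zero _ h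
    · exact val_ne_zero _ h
  · intro j
    have hsol := sep_sol m (e j).1 (e j).2
    refine ⟨?_, ?_, fun _ h => h.elim, fun _ h => h.elim⟩
    · intro v w hvw
      have hv : v ≤ m := hvw.2.2.2.1
      have hw : w ≤ m := hvw.2.2.2.2
      simp only [hv, hw, if_true]
      exact hsol.1 v w hvw
    · intro v hv
      have hv0 : v = 0 := hv
      subst hv0
      simp only [Nat.zero_le, if_true]
      exact hsol.2.1 0 rfl
  · intro v
    by_cases hv : v ≤ m
    · simp only [hv, if_true]
      exact hfc v hv
    · simp only [hv, if_false]
      exact hfc 0 (by omega)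

theorem many : Function.Injective (fun k : ℕ => pPol (path (k + 2)).Sol) := by
  have key : ∀ k l : ℕ, k < l → pPol (path (k + 2)).Sol ≠ pPol (path (l + 2)).Sol := by
    intro k l hkl heq
    apply not_inv (n := k + 2) (m := l + 2) (by omega) (by omega)
    rw [heq]
    exact inv_pPol _
  intro k l hkl
  rcases lt_trichotomy k l with h | h | h
  · exact absurd hkl (key k l h)
  · exact h
  · exact absurd hkl.symm (key l k h)

end Pool.Agent.MP_2c0439_al
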